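import Pool.Agent.Q41.GT.Stm5

/-!
Project GT of helper41: (R2) the generic point of a subset of the moduli space, with the tools
on lifts, specialisations and resultants.
-/

namespace Pool.Agent.Q162.GT

open Finset Polynomial
open Pool.Agent.W277.UH (ratP1)
open Pool.Agent.Q41.GT

/-- Lifts and ring homomorphisms. -/
theorem lift_map {A B A' B' : Type*} [CommRing A] [CommRing B] [Algebra A B] [CommRing A']
    [CommRing B'] [Algebra A' B'] (g : A →+* A') (f : B →+* B')
    (h : ∀ a, f (algebraMap A B a) = algebraMap A' B' (g a)) (p q : A[X]) (d : ℕ)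
    (v : Fin 2 → B) (i : Fin 2) :
    f (lift p q d v i) = lift (p.map g) (q.map g) d (fun j => f (v j)) i := by
  fin_cases i <;> simp [lift, map_sum, h, coeff_map]

/-- Iterated lifts and ring homomorphisms. -/
theorem lift_iter {A B A' B' : Type*} [CommRing A] [CommRing B] [Algebra A B] [CommRing A']
    [CommRing B'] [Algebra A' B'] (g : A →+* A') (f : B →+* B')
    (h : ∀ a, f (algebraMap A B a) = algebraMap A' B' (g a)) (p q : A[X]) (d : ℕ) (k : ℕ)
    (v : Fin 2 → B) :
    (fun i => f ((lift p q d)^[k] v i)) = (lift (p.map g) (q.map g) d)^[k] (fun j => f (v j)) := by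
  induction k generalizing v with
  | zero => rfl
  | succ k ih =>
    rw [Function.iterate_succ_apply, Function.iterate_succ_apply, ih]
    congr 1
    funext i
    exact lift_map g f h p q d v i

theorem num_map {A B : Type*} [CommRing A] [CommRing B] (f : A →+* B) (d : ℕ) (x : Sg d → A) :
    (num d x).map f = num d (fun s => f (x s)) := by
  simp [num, Polynomial.map_sum]

theorem den_map {A B : Type*} [CommRing A] [CommRing B] (f : A →+* B) (d : ℕ) (x : Sg d → A) :
    (den d x).map f = den d (fun s => f (x s)) := by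
  simp only [den, Polynomial.map_add, Polynomial.map_pow, Polynomial.map_X, Polynomial.map_sum,
    Polynomial.map_mul, Polynomial.map_C]
  rw [← coeff_map, num_map]

theorem num_lt {A : Type*} [CommRing A] [Nontrivial A] (d : ℕ) (hd : 1 ≤ d) (x : Sg d → A) :
    (num d x).natDegree < d := by
  refine lt_of_le_of_lt (natDegree_sum_le_of_forall_le (n := d - 1) _ _ ?_) (by omega)
  intro i _
  refine (natDegree_C_mul_X_pow_le _ _).trans ?_
  have := i.2
  omega

theorem den_low {A : Type*} [CommRing A] [Nontrivial A] (d : ℕ) (hd : 1 ≤ d) (x : Sg d → A) :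
    (∑ i : Fin (d - 1), C (x (Sum.inr i)) * X ^ ((i : ℕ) + 1) + C ((num d x).coeff 0)).natDegree
      < d := by
  refine lt_of_le_of_lt (natDegree_add_le_of_degree_le (n := d - 1) ?_ ?_) (by omega)
  · refine natDegree_sum_le_of_forall_le _ _ ?_
    intro i _
    refine (natDegree_C_mul_X_pow_le _ _).trans ?_
    have := i.2
    omega
  · rw [natDegree_C]
    omega

theorem den_mon {A : Type*} [CommRing A] [Nontrivial A] (d : ℕ) (hd : 1 ≤ d) (x : Sg d → A) :
    (den d x).Monic ∧ (den d x).natDegree = d := by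
  have h := den_low d hd x
  have h1 : den d x = X ^ d + (∑ i : Fin (d - 1), C (x (Sum.inr i)) * X ^ ((i : ℕ) + 1) +
      C ((num d x).coeff 0)) := by
    rw [den, add_assoc]
  rw [h1]
  have h2 : (∑ i : Fin (d - 1), C (x (Sum.inr i)) * X ^ ((i : ℕ) + 1) +
      C ((num d x).coeff 0)).degree < (d : WithBot ℕ) := by
    rw [degree_lt_iff_coeff_zero]
    intro m hm
    exact coeff_eq_zero_of_natDegree_lt (lt_of_lt_of_le h hm)
  refine ⟨monic_X_pow_add h2, ?_⟩
  rw [natDegree_add_eq_left_of_natDegree_lt]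
  · exact natDegree_X_pow d
  · rw [natDegree_X_pow]; exact h

theorem max_deg {A : Type*} [CommRing A] [Nontrivial A] (d : ℕ) (hd : 1 ≤ d) (x : Sg d → A) :
    max (num d x).natDegree (den d x).natDegree = d := by
  rw [(den_mon d hd x).2]
  exact max_eq_right (num_lt d hd x).le

/-- A nonzero resultant means coprime. -/
theorem res_cop {K : Type*} [Field K] (f g : K[X]) (m n : ℕ) (hf : f.natDegree ≤ m)
    (hg : g.natDegree ≤ n) (hmn : m ≠ 0 ∨ n ≠ 0) (h : resultant f g m n ≠ 0) :
    IsCoprime f g := by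
  obtain ⟨a, b, -, -, e⟩ := exists_mul_add_mul_eq_C_resultant f g hf hg hmn
  refine ⟨C (resultant f g m n)⁻¹ * a, C (resultant f g m n)⁻¹ * b, ?_⟩
  have : C (resultant f g m n)⁻¹ * a * f + C (resultant f g m n)⁻¹ * b * g =
      C (resultant f g m n)⁻¹ * (f * a + g * b) := by ring
  rw [this, e, ← C_mul, inv_mul_cancel₀ h, C_1]

/-- The resultant is zero if both degrees are smaller. -/
theorem res_deg {K : Type*} [Field K] (f g : K[X]) (m n : ℕ) (hf : f.natDegree ≤ m)
    (hg : g.natDegree ≤ n) (h : resultant f g m n ≠ 0) :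
    f.natDegree = m ∨ g.natDegree = n := by
  by_contra hc
  push Not at hc
  exact h (resultant_eq_zero_of_lt_lt _ _ _ _ (lt_of_le_of_ne hf hc.1) (lt_of_le_of_ne hg hc.2))

/-- The resultant of coprime polynomials, one of the right degree. -/
theorem res_ne {K : Type*} [Field K] (f g : K[X]) (m n : ℕ) (hf : f.natDegree = m)
    (hf0 : f ≠ 0) (hg : g.natDegree ≤ n) (h : IsCoprime f g) : resultant f g m n ≠ 0 := by
  obtain ⟨k, rfl⟩ := Nat.exists_eq_add_of_le hg
  rw [resultant_add_right_deg _ _ _ _ _ le_rfl]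
  refine mul_ne_zero (pow_ne_zero _ ?_) ?_
  · rw [← hf, coeff_natDegree]
    exact leadingCoeff_ne_zero.2 hf0
  · rw [← hf]
    exact resultant_ne_zero _ _ h

/-- Coprimality of numerator and denominator. -/
theorem cop_iff {K : Type*} [Field K] (d : ℕ) (hd : 1 ≤ d) (x : Sg d → K) :
    IsCoprime (num d x) (den d x) ↔ resultant (den d x) (num d x) d d ≠ 0 := by
  have h := den_mon d hd x
  constructor
  · intro hc
    exact res_ne _ _ d d h.2 h.1.ne_zero (num_lt d hd x).le hc.symm
  · intro hr
    exact (res_cop _ _ d d h.2.le (num_lt d hd x).le (Or.inl (by omega)) hr).symm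

/-- The resultant as a polynomial in the coefficients. -/
noncomputable def Rs (k : Type*) [Field k] (d : ℕ) : MvPolynomial (Sg d) k :=
  resultant (den d (MvPolynomial.X : Sg d → MvPolynomial (Sg d) k))
    (num d (MvPolynomial.X : Sg d → MvPolynomial (Sg d) k)) d d

/-- The second coordinate of the `m`-th iterate at infinity. -/
noncomputable def Bm (k : Type*) [Field k] (d m : ℕ) : MvPolynomial (Sg d) k :=
  ((lift (num d (MvPolynomial.X : Sg d → MvPolynomial (Sg d) k))
    (den d (MvPolynomial.X : Sg d → MvPolynomial (Sg d) k)) d)^[m] ![1, 0]) 1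

theorem Rs_eval {k L : Type*} [Field k] [Field L] [Algebra k L] (d : ℕ) (y : Sg d → L) :
    MvPolynomial.aeval y (Rs k d) = resultant (den d y) (num d y) d d := by
  have h := resultant_map_map (den d (MvPolynomial.X : Sg d → MvPolynomial (Sg d) k))
    (num d (MvPolynomial.X : Sg d → MvPolynomial (Sg d) k)) d d
    (MvPolynomial.aeval y : MvPolynomial (Sg d) k →ₐ[k] L).toRingHom
  have e : (MvPolynomial.aeval y : MvPolynomial (Sg d) k →ₐ[k] L).toRingHom (Rs k d) =
    MvPolynomial.aeval y (Rs k d) := rfl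
  have hy : (fun s => (MvPolynomial.aeval y : MvPolynomial (Sg d) k →ₐ[k] L).toRingHom
      (MvPolynomial.X s)) = y := by
    funext s
    exact MvPolynomial.aeval_X y s
  rw [← e, Rs, ← h, num_map, den_map, hy]

theorem Bm_eval {k L : Type*} [Field k] [Field L] [Algebra k L] (d m : ℕ) (y : Sg d → L) :
    MvPolynomial.aeval y (Bm k d m) = ((lift (num d y) (den d y) d)^[m] ![1, 0]) 1 := by
  have h := lift_iter (MvPolynomial.aeval y : MvPolynomial (Sg d) k →ₐ[k] L).toRingHom
    (MvPolynomial.aeval y : MvPolynomial (Sg d) k →ₐ[k] L).toRingHom (fun a => rfl)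
    (num d (MvPolynomial.X : Sg d → MvPolynomial (Sg d) k))
    (den d (MvPolynomial.X : Sg d → MvPolynomial (Sg d) k)) d m ![1, 0]
  have h1 := congrFun h 1
  have e : (fun j => (MvPolynomial.aeval y : MvPolynomial (Sg d) k →ₐ[k] L).toRingHom
      ((![1, 0] : Fin 2 → MvPolynomial (Sg d) k) j)) = ![1, 0] := by
    funext j
    fin_cases j <;> simp
  rw [e, num_map, den_map] at h1
  simpa [Bm] using h1

theorem pt_inf {K : Type*} [Field K] : pt (![1, 0] : Fin 2 → K) = none := by
  unfold pt
  simp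

theorem pt_none {K : Type*} [Field K] (v : Fin 2 → K) : pt v = none ↔ v 1 = 0 := by
  unfold pt
  split_ifs with h <;> simp [h]

/-- The iterates of infinity. -/
theorem iter_inf (hom : S_hom) {k L : Type} [Field k] [Field L] [Algebra k L] (d m : ℕ)
    (hd : 1 ≤ d) (y : Sg d → L) (hc : IsCoprime (num d y) (den d y)) :
    (ratP1 (num d y) (den d y) d)^[m] none = none ↔ MvPolynomial.aeval y (Bm k d m) = 0 := by
  have h := hom L d (num d y) (den d y) hc (max_deg d hd y) ![1, 0]
    (fun h => by simpa using congrFun h 0) m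
  rw [Bm_eval, ← pt_none, ← h.2.1, pt_inf]

/-- The minimal period. -/
theorem per_iff {α : Type*} (f : α → α) (a : α) (n : ℕ) (hn : 1 ≤ n) :
    Function.minimalPeriod f a = n ↔ f^[n] a = a ∧ ∀ m, 1 ≤ m → m < n → f^[m] a ≠ a := by
  constructor
  · rintro rfl
    refine ⟨Function.isPeriodicPt_minimalPeriod f a, ?_⟩
    intro m hm hmn h
    exact absurd (Function.IsPeriodicPt.minimalPeriod_le hm h) (by omega)
  · rintro ⟨h1, h2⟩
    have h3 : Function.IsPeriodicPt f n a := h1
    have h4 := Function.IsPeriodicPt.minimalPeriod_le hn h3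
    by_contra hne
    have h5 : 0 < Function.minimalPeriod f a :=
      Function.IsPeriodicPt.minimalPeriod_pos hn h3
    exact h2 _ h5 (lt_of_le_of_ne h4 hne) (Function.isPeriodicPt_minimalPeriod f a)

/-- The moduli space by equations and inequations. -/
theorem mem_V (hom : S_hom) {k L : Type} [Field k] [Field L] [Algebra k L] (d n : ℕ)
    (hd : 1 ≤ d) (hn : 1 ≤ n) (y : Sg d → L) :
    y ∈ V d n L ↔ MvPolynomial.aeval y (Rs k d) ≠ 0 ∧ MvPolynomial.aeval y (Bm k d n) = 0 ∧
      ∀ m, 1 ≤ m → m < n → MvPolynomial.aeval y (Bm k d m) ≠ 0 := by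
  unfold V
  rw [Set.mem_ofPred_eq, cop_iff d hd, ← Rs_eval (k := k)]
  constructor
  · rintro ⟨h1, h2⟩
    have hc : IsCoprime (num d y) (den d y) := by
      rw [cop_iff d hd, ← Rs_eval (k := k)]; exact h1
    rw [per_iff _ _ _ hn] at h2
    exact ⟨h1, (iter_inf hom d n hd y hc).1 h2.1,
      fun m hm hmn h => h2.2 m hm hmn ((iter_inf hom d m hd y hc).2 h)⟩
  · rintro ⟨h1, h2, h3⟩
    have hc : IsCoprime (num d y) (den d y) := by
      rw [cop_iff d hd, ← Rs_eval (k := k)]; exact h1
    refine ⟨h1, ?_⟩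
    rw [per_iff _ _ _ hn]
    exact ⟨(iter_inf hom d n hd y hc).2 h2,
      fun m hm hmn h => h3 m hm hmn ((iter_inf hom d m hd y hc).1 h)⟩

/-- (R2) -/
theorem gnp (hom : S_hom) : S_gnp := by
  intro k K _ _ _ d n hd hn W hW x hx
  have hd1 : 1 ≤ d := by omega
  obtain ⟨hx1, hx2⟩ := hx
  have hne : W.Nonempty := by
    rw [Set.nonempty_iff_ne_empty]
    rintro rfl
    have h := (hx1 1).2 (by simp)
    simp at h
  obtain ⟨w, hw⟩ := hne
  rw [mem_V hom (k := k) d n hd1 hn]
  have key : ∀ g : MvPolynomial (Sg d) k, MvPolynomial.aeval w g ≠ 0 →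
      MvPolynomial.aeval x g ≠ 0 := by
    intro g hg h
    rw [hx1, MvPolynomial.mem_vanishingIdeal_iff] at h
    exact hg (h w hw)
  have hwV := (mem_V hom (k := k) d n hd1 hn w).1 (hW hw)
  refine ⟨key _ hwV.1, ?_, fun m hm hmn => key _ (hwV.2.2 m hm hmn)⟩
  rw [hx1, MvPolynomial.mem_vanishingIdeal_iff]
  intro y hy
  exact ((mem_V hom (k := k) d n hd1 hn y).1 (hW hy)).2.1

end Pool.Agent.Q162.GT
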