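import Pool.Agent.Q162.GT.Gnp

/-!
Project GT of helper41: (R5) components of the moduli space.
-/

namespace Pool.Agent.Q162.GT

open Finset Polynomial
open Pool.Agent.W277.UH (ratP1)
open Pool.Agent.Q41.GT

/-- The minimal primes over the vanishing ideal of a set. -/
theorem comp_ideal {σ k : Type*} [Field k] [Finite σ] (W : Set (σ → k))
    (P : Ideal (MvPolynomial σ k)) (hP : P ∈ (MvPolynomial.vanishingIdeal k W).minimalPrimes) :
    P = MvPolynomial.vanishingIdeal k (W ∩ MvPolynomial.zeroLocus k P) := by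
  have hPp : P.IsPrime := hP.1.1
  apply le_antisymm
  · intro g hg
    rw [MvPolynomial.mem_vanishingIdeal_iff]
    intro y hy
    exact hy.2 g hg
  · intro g hg
    rw [MvPolynomial.mem_vanishingIdeal_iff] at hg
    have hfin : (MvPolynomial.vanishingIdeal k W).minimalPrimes.Finite :=
      Ideal.finite_minimalPrimes_of_isNoetherianRing _ _
    have hfin2 : ((MvPolynomial.vanishingIdeal k W).minimalPrimes \ {P}).Finite :=
      hfin.subset Set.sdiff_subset
    -- an element in all the other minimal primes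
    have hh : ∃ h : MvPolynomial σ k, h ∉ P ∧
        ∀ Q ∈ (MvPolynomial.vanishingIdeal k W).minimalPrimes, Q ≠ P → h ∈ Q := by
      have : ∀ Q ∈ hfin2.toFinset, ∃ h : MvPolynomial σ k, h ∉ P ∧ h ∈ Q := by
        intro Q hQ
        rw [Set.Finite.mem_toFinset] at hQ
        have hnle : ¬ Q ≤ P := by
          intro hle
          have := hP.2 hQ.1.1 hle
          exact hQ.2 (le_antisymm hle this)
        obtain ⟨h, h1, h2⟩ := Set.not_subset.1 hnle
        exact ⟨h, h2, h1⟩
      choose! f hf using this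
      refine ⟨∏ Q ∈ hfin2.toFinset, f Q, ?_, ?_⟩
      · intro hmem
        rw [hPp.prod_mem_iff] at hmem
        obtain ⟨Q, hQ, hQ2⟩ := hmem
        exact (hf Q hQ).1 hQ2
      · intro Q hQ hne
        have hQ' : Q ∈ hfin2.toFinset := by
          rw [Set.Finite.mem_toFinset]; exact ⟨hQ, hne⟩
        exact Ideal.mem_of_dvd _ (Finset.dvd_prod_of_mem f hQ') (hf Q hQ').2
    obtain ⟨h, hhP, hhQ⟩ := hh
    have hgh : g * h ∈ MvPolynomial.vanishingIdeal k W := by
      rw [MvPolynomial.mem_vanishingIdeal_iff]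
      intro y hy
      rw [map_mul]
      by_cases hyP : y ∈ MvPolynomial.zeroLocus k P
      · rw [hg y ⟨hy, hyP⟩, zero_mul]
      · have hpr : (RingHom.ker (MvPolynomial.aeval y : MvPolynomial σ k →ₐ[k] k)).IsPrime :=
          RingHom.ker_isPrime _
        have hle : MvPolynomial.vanishingIdeal k W ≤
            RingHom.ker (MvPolynomial.aeval y : MvPolynomial σ k →ₐ[k] k) := by
          intro a ha
          rw [MvPolynomial.mem_vanishingIdeal_iff] at ha
          exact ha y hy
        obtain ⟨Q, hQ, hQle⟩ := Ideal.exists_minimalPrimes_le hle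
        have hne : Q ≠ P := by
          rintro rfl
          exact hyP fun a ha => hQle ha
        have : MvPolynomial.aeval y h = 0 := hQle (hhQ Q hQ hne)
        rw [this, mul_zero]
    rcases hPp.mem_or_mem (hP.1.2 hgh) with h1 | h1
    · exact h1
    · exact absurd h1 hhP

/-- Lower bound of the transcendence degree modulo a prime generated by one element. -/
theorem trdeg_mod {σ k : Type} [Fintype σ] [Field k] {p : MvPolynomial σ k} (hp0 : p ≠ 0)
    (hp : ¬ IsUnit p) {J : Ideal (MvPolynomial σ k)} (hJ : J ≤ Ideal.span {p}) :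
    (Fintype.card σ : Cardinal) ≤ Algebra.trdeg k (MvPolynomial σ k ⧸ J) + 1 := by
  classical
  obtain ⟨t, ht⟩ : ∃ t, t ∈ p.vars := by
    by_contra hn
    push Not at hn
    have h1 : p.vars = ∅ := Finset.eq_empty_of_forall_notMem hn
    rw [MvPolynomial.vars_eq_empty_iff_eq_C] at h1
    apply hp
    rw [h1]
    refine IsUnit.map MvPolynomial.C (isUnit_iff_ne_zero.2 fun h => hp0 ?_)
    rw [h1, h, MvPolynomial.C_0]
  have ht' : p.degreeOf t ≠ 0 := MvPolynomial.mem_vars_iff_degreeOf_ne_zero.1 ht
  have h1 : Function.Injective ((Ideal.Quotient.mkₐ k J).comp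
      (MvPolynomial.rename (Subtype.val : {j : σ // j ≠ t} → σ) :
        MvPolynomial {j : σ // j ≠ t} k →ₐ[k] MvPolynomial σ k)) := by
    rw [injective_iff_map_eq_zero]
    intro a ha
    have h2 : MvPolynomial.rename (Subtype.val : {j : σ // j ≠ t} → σ) a ∈ J :=
      Ideal.Quotient.eq_zero_iff_mem.1 ha
    obtain ⟨g, hg⟩ := Ideal.mem_span_singleton.1 (hJ h2)
    by_contra ha0
    have h3 : MvPolynomial.rename (Subtype.val : {j : σ // j ≠ t} → σ) a ≠ 0 := fun h => ha0 <|
      MvPolynomial.rename_injective _ Subtype.val_injective (by rw [h, map_zero])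
    have hg0 : g ≠ 0 := fun h => h3 (by rw [hg, h, mul_zero])
    have h4 := MvPolynomial.degreeOf_mul_eq (n := t) hp0 hg0
    rw [← hg] at h4
    have h5 : (MvPolynomial.rename (Subtype.val : {j : σ // j ≠ t} → σ) a).degreeOf t ≠ 0 := by
      omega
    rw [← MvPolynomial.mem_vars_iff_degreeOf_ne_zero] at h5
    obtain ⟨i, -, hi⟩ := MvPolynomial.mem_vars_rename _ _ h5
    exact i.2 hi
  have h2 := trdeg_le_of_injective _ h1
  rw [MvPolynomial.trdeg_of_isDomain] at h2
  have h3 : Fintype.card {j : σ // j ≠ t} + 1 = Fintype.card σ := by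
    have : 0 < Fintype.card σ := Fintype.card_pos_iff.2 ⟨t⟩
    rw [Fintype.card_subtype_compl, Fintype.card_subtype_eq]
    omega
  calc (Fintype.card σ : Cardinal) = ((Fintype.card {j : σ // j ≠ t} + 1 : ℕ) : Cardinal) := by
        rw [h3]
    _ = Cardinal.lift (Cardinal.mk {j : σ // j ≠ t}) + 1 := by
        rw [Cardinal.mk_fintype, Cardinal.lift_natCast]; push_cast; rfl
    _ ≤ _ := by gcongr

/-- Upper bound of the transcendence degree of a proper quotient. -/
theorem trdeg_lt' {σ k R : Type} [Fintype σ] [Field k] [CommRing R] [IsDomain R] [Algebra k R]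
    (φ : MvPolynomial σ k →ₐ[k] R) (hs : Function.Surjective φ) (a : MvPolynomial σ k)
    (ha0 : a ≠ 0) (ha : φ a = 0) : Algebra.trdeg k R < Fintype.card σ := by
  classical
  by_contra hc
  push Not at hc
  have hadj : Algebra.adjoin k (Set.range fun i : σ => φ (MvPolynomial.X i)) = ⊤ := by
    have h1 : (Set.range fun i : σ => φ (MvPolynomial.X i)) =
        φ '' (Set.range MvPolynomial.X) := by
      rw [← Set.range_comp]; rfl
    rw [h1, ← AlgHom.map_adjoin, MvPolynomial.adjoin_range_X, Algebra.map_top,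
      AlgHom.range_eq_top]
    exact hs
  have halg : Algebra.IsAlgebraic (Algebra.adjoin k (Set.range fun i : σ =>
      φ (MvPolynomial.X i))) R := by
    constructor
    intro z
    have hz : z ∈ Algebra.adjoin k (Set.range fun i : σ => φ (MvPolynomial.X i)) := by
      rw [hadj]; trivial
    exact isAlgebraic_algebraMap (⟨z, hz⟩ : Algebra.adjoin k (Set.range fun i : σ =>
      φ (MvPolynomial.X i)))
  have hle : Cardinal.mk σ ≤ Algebra.trdeg k R := by
    rw [Cardinal.mk_fintype]; exact hc
  have hfs : FaithfulSMul k R :=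
    (faithfulSMul_iff_algebraMap_injective _ _).2 (algebraMap k R).injective
  have htb := Algebra.IsAlgebraic.isTranscendenceBasis_of_le_trdeg_of_finite k
    (fun i : σ => φ (MvPolynomial.X i)) hle
  have hind := htb.1
  apply ha0
  rw [algebraicIndependent_iff] at hind
  apply hind
  have h1 : MvPolynomial.aeval (fun i : σ => φ (MvPolynomial.X i)) = φ := by
    apply MvPolynomial.algHom_ext
    intro i
    simp
  rw [h1]
  exact ha

/-- Upper bound of the transcendence degree modulo a nonzero prime. -/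
theorem trdeg_lt {σ k : Type} [Fintype σ] [Field k] (P : Ideal (MvPolynomial σ k)) [P.IsPrime]
    (hP : P ≠ ⊥) :
    Algebra.trdeg k (MvPolynomial σ k ⧸ P) < Fintype.card σ := by
  obtain ⟨a, ha, ha0⟩ := Submodule.exists_mem_ne_zero_of_ne_bot hP
  exact trdeg_lt' (Ideal.Quotient.mkₐ k P) (Ideal.Quotient.mkₐ_surjective k P) a ha0
    (Ideal.Quotient.eq_zero_iff_mem.2 ha)

/-- The transcendence degree of the fraction field. -/
theorem trdeg_frac {k R : Type} [Field k] [CommRing R] [IsDomain R] [Algebra k R] :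
    Algebra.trdeg k R = Algebra.trdeg k (FractionRing R) := by
  have hal : Algebra.IsAlgebraic R (FractionRing R) :=
    IsLocalization.isAlgebraic _ (nonZeroDivisors R)
  have hfs : FaithfulSMul k R :=
    (faithfulSMul_iff_algebraMap_injective _ _).2 (algebraMap k R).injective
  rw [← _root_.trdeg_add_eq k R (A := FractionRing R), _root_.trdeg_eq_zero
    (R := R) (A := FractionRing R), add_zero]

/-- The transcendence degree modulo a principal prime. -/
theorem trdeg_eq {σ k : Type} [Fintype σ] [Field k] (P : Ideal (MvPolynomial σ k)) [P.IsPrime]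
    (p : MvPolynomial σ k) (hp : p ≠ 0) (hP : P = Ideal.span {p}) :
    Algebra.trdeg k (FractionRing (MvPolynomial σ k ⧸ P)) = (Fintype.card σ - 1 : ℕ) := by
  have h0 : P ≠ ⊥ := by
    rw [hP, Ne, Ideal.span_singleton_eq_bot]; exact hp
  have h1 := trdeg_lt P h0
  have hu : ¬ IsUnit p := by
    intro h
    have := (inferInstance : P.IsPrime).ne_top
    rw [hP] at this
    exact this (Ideal.span_singleton_eq_top.2 h)
  have h2 := trdeg_mod hp hu hP.le
  rw [← trdeg_frac]
  obtain ⟨m, hm⟩ := Cardinal.lt_aleph0.1 (h1.trans (Cardinal.natCast_lt_aleph0))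
  rw [hm] at h1 h2 ⊢
  have h4 : m < Fintype.card σ := by exact_mod_cast h1
  have h5 : Fintype.card σ ≤ m + 1 := by exact_mod_cast h2
  congr 1
  omega

/-- A point where `Bm` does not vanish. -/
theorem Bm_ne (hom : S_hom) (k : Type) [Field k] (d n : ℕ) (hd : 2 ≤ d) (hn : 1 ≤ n) :
    Bm k d n ≠ 0 := by
  have hd1 : 1 ≤ d := by omega
  intro h0
  set x : Sg d → k := fun s => match s with
    | Sum.inl i => if (i : ℕ) = 0 then 1 else 0
    | Sum.inr i => if (i : ℕ) = d - 2 then -1 else 0 with hx
  have hnum : num d x = 1 := by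
    unfold num
    rw [Finset.sum_eq_single (⟨0, by omega⟩ : Fin d)]
    · simp [hx]
    · intro b _ hb
      have : (b : ℕ) ≠ 0 := fun h => hb (Fin.ext h)
      simp [hx, this]
    · simp
  have hden : den d x = X ^ d - X ^ (d - 1) + 1 := by
    unfold den
    rw [hnum, Finset.sum_eq_single (⟨d - 2, by omega⟩ : Fin (d - 1))]
    · have e : d - 2 + 1 = d - 1 := by omega
      simp [hx, e]
      ring
    · intro b _ hb
      have : (b : ℕ) ≠ d - 2 := fun h => hb (Fin.ext h)
      simp [hx, this]
    · simp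
  have hc : IsCoprime (num d x) (den d x) := by rw [hnum]; exact isCoprime_one_left
  have h1 := (iter_inf hom (k := k) d n hd1 x hc).2 (by rw [h0, map_zero])
  have hm := den_mon d hd1 x
  have hd0 : (den d x).coeff d = 1 := by
    have := hm.1.coeff_natDegree
    rwa [hm.2] at this
  have f0 : ratP1 (num d x) (den d x) d none = some 0 := by
    rw [Pool.Agent.W277.UH.ratP1_none _ _ _ (by rw [hd0]; exact one_ne_zero),
      coeff_eq_zero_of_natDegree_lt (num_lt d hd1 x), zero_div]
  have f1 : ratP1 (num d x) (den d x) d (some 0) = some 1 := by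
    have e : (den d x).eval 0 = 1 := by
      rw [hden]
      have : d ≠ 0 := by omega
      have : d - 1 ≠ 0 := by omega
      simp [*]
    rw [Pool.Agent.W277.UH.ratP1_some _ _ _ _ (by rw [e]; exact one_ne_zero), e, hnum]
    simp
  have f2 : ratP1 (num d x) (den d x) d (some 1) = some 1 := by
    have e : (den d x).eval 1 = 1 := by
      rw [hden]
      simp
    rw [Pool.Agent.W277.UH.ratP1_some _ _ _ _ (by rw [e]; exact one_ne_zero), e, hnum]
    simp
  have h2 : ∀ j, (ratP1 (num d x) (den d x) d)^[j] (some 1) = some 1 := by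
    intro j
    induction j with
    | zero => rfl
    | succ j ih => rw [Function.iterate_succ_apply, f2, ih]
  rcases n with _ | _ | n
  · omega
  · rw [Function.iterate_one, f0] at h1
    simp at h1
  · rw [Function.iterate_succ_apply, Function.iterate_succ_apply, f0, f1, h2] at h1
    simp at h1

/-- (R5) -/
theorem cmp (hom : S_hom) : S_cmp := by
  intro k _ _ d n hd hn P _ hP
  have hd1 : 1 ≤ d := by omega
  have hc := comp_ideal _ _ hP
  refine ⟨hc, ?_⟩
  have hPp : P.IsPrime := hP.1.1
  set H : MvPolynomial (Sg d) k := Rs k d * ∏ m ∈ Finset.Ico 1 n, Bm k d m with hH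
  have hV : ∀ y : Sg d → k, y ∈ V d n k ↔ MvPolynomial.aeval y H ≠ 0 ∧
      MvPolynomial.aeval y (Bm k d n) = 0 := by
    intro y
    rw [mem_V hom (k := k) d n hd1 hn y, hH, map_mul, map_prod, mul_ne_zero_iff,
      Finset.prod_ne_zero_iff]
    constructor
    · rintro ⟨h1, h2, h3⟩
      exact ⟨⟨h1, fun m hm => h3 m (Finset.mem_Ico.1 hm).1 (Finset.mem_Ico.1 hm).2⟩, h2⟩
    · rintro ⟨⟨h1, h2⟩, h3⟩
      exact ⟨h1, h3, fun m hm hmn => h2 m (Finset.mem_Ico.2 ⟨hm, hmn⟩)⟩
  have hne : (V d n k ∩ MvPolynomial.zeroLocus k P).Nonempty := by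
    rw [Set.nonempty_iff_ne_empty]
    intro h
    rw [h, MvPolynomial.vanishingIdeal_empty] at hc
    exact hPp.ne_top hc
  obtain ⟨y0, hy0, hy0P⟩ := hne
  have hHP : H ∉ P := by
    intro h
    exact ((hV y0).1 hy0).1 (hy0P H h)
  have hB : Bm k d n ∈ P := by
    apply hP.1.2
    rw [MvPolynomial.mem_vanishingIdeal_iff]
    intro y hy
    exact ((hV y).1 hy).2
  have hle : Ideal.span {Bm k d n} ≤ P := by
    rw [Ideal.span_singleton_le_iff_mem]; exact hB
  obtain ⟨Q, hQ, hQP⟩ := Ideal.exists_minimalPrimes_le hle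
  have hQp : Q.IsPrime := hQ.1.1
  have hBQ : Bm k d n ∈ Q := (Ideal.span_singleton_le_iff_mem _).1 hQ.1.2
  have hB0 := Bm_ne hom k d n hd hn
  -- `I ≤ Q`
  have hIQ : MvPolynomial.vanishingIdeal k (V d n k) ≤ Q := by
    intro g hg
    rw [MvPolynomial.mem_vanishingIdeal_iff] at hg
    have h1 : g * H ∈ Q := by
      rw [← MvPolynomial.IsPrime.vanishingIdeal_zeroLocus (K := k) Q,
        MvPolynomial.mem_vanishingIdeal_iff]
      intro y hy
      rw [map_mul]
      by_cases h : MvPolynomial.aeval y H = 0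
      · rw [h, mul_zero]
      · rw [hg y ((hV y).2 ⟨h, hy _ hBQ⟩), zero_mul]
    rcases hQp.mem_or_mem h1 with h2 | h2
    · exact h2
    · exact absurd (hQP h2) hHP
  have hQPe : Q = P := le_antisymm hQP (hP.2 ⟨hQp, hIQ⟩ hQP)
  subst hQPe
  -- a prime factor of `B`
  obtain ⟨f, hf1, hf2⟩ := UniqueFactorizationMonoid.exists_prime_factors _ hB0
  have h3 : f.prod ∈ Q := by
    obtain ⟨u, hu⟩ := hf2
    have h4 : f.prod * u ∈ Q := by rw [hu]; exact hBQ
    rcases hQp.mem_or_mem h4 with h5 | h5
    · exact h5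
    · exact absurd (Ideal.eq_top_of_isUnit_mem _ h5 u.isUnit) hQp.ne_top
  rw [hQp.multiset_prod_mem_iff_exists_mem] at h3
  obtain ⟨p, hpf, hpQ⟩ := h3
  have hpp := hf1 p hpf
  have hspan : (Ideal.span {p}).IsPrime := (Ideal.span_singleton_prime hpp.ne_zero).2 hpp
  have hdvd : p ∣ Bm k d n := by
    rw [← hf2.dvd_iff_dvd_right]
    exact Multiset.dvd_prod hpf
  have h6 : Ideal.span {Bm k d n} ≤ Ideal.span {p} := by
    rw [Ideal.span_singleton_le_span_singleton]; exact hdvd
  have h7 : Ideal.span {p} ≤ Q := (Ideal.span_singleton_le_iff_mem _).2 hpQ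
  have h8 : Q = Ideal.span {p} := le_antisymm (hQ.2 ⟨hspan, h6⟩ h7) h7
  rw [trdeg_eq Q p hpp.ne_zero h8]
  congr 1
  simp only [Sg, Fintype.card_sum, Fintype.card_fin]
  omega

end Pool.Agent.Q162.GT
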