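import Pool.Agent.Q162.GT.Gnp

/-!
Project GT of helper41: (R8) simple periodic points for almost all members of a pencil.
-/

namespace Pool.Agent.Q162.GT

open Finset Polynomial
open Pool.Agent.Q41.GT

/-- The two coordinates of the lift have the same shape. -/
theorem lift_shape {A B : Type*} [CommRing A] [CommRing B] [Algebra A B] (p q : A[X]) (d : ℕ)
    (i : Fin 2) : ∃ r : A[X], ∀ v : Fin 2 → B, lift p q d v i =
      ∑ j ∈ range (d + 1), algebraMap A B (r.coeff j) * v 0 ^ j * v 1 ^ (d - j) := by
  fin_cases i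
  · exact ⟨p, fun v => rfl⟩
  · exact ⟨q, fun v => rfl⟩

/-- Degrees and top coefficients of a lift. -/
theorem lift_deg {A : Type*} [CommRing A] (p q : A[X]) (d N : ℕ) (w : Fin 2 → A[X])
    (hw : ∀ i, (w i).natDegree ≤ N) (i : Fin 2) :
    (lift p q d w i).natDegree ≤ N * d ∧
      (lift p q d w i).coeff (N * d) = lift p q d (fun j => (w j).coeff N) i := by
  have key : ∀ r : A[X], (∑ j ∈ range (d + 1), algebraMap A A[X] (r.coeff j) * w 0 ^ j *
      w 1 ^ (d - j)).natDegree ≤ N * d ∧
      (∑ j ∈ range (d + 1), algebraMap A A[X] (r.coeff j) * w 0 ^ j *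
        w 1 ^ (d - j)).coeff (N * d) =
      ∑ j ∈ range (d + 1), algebraMap A A (r.coeff j) * (w 0).coeff N ^ j *
        (w 1).coeff N ^ (d - j) := by
    intro r
    have h1 : ∀ j ∈ range (d + 1), (algebraMap A A[X] (r.coeff j) * w 0 ^ j *
        w 1 ^ (d - j)).natDegree ≤ N * d ∧ (algebraMap A A[X] (r.coeff j) * w 0 ^ j *
        w 1 ^ (d - j)).coeff (N * d) = algebraMap A A (r.coeff j) * (w 0).coeff N ^ j *
        (w 1).coeff N ^ (d - j) := by
      intro j hj
      rw [Finset.mem_range] at hj
      have e : N * d = j * N + (d - j) * N := by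
        obtain ⟨l, rfl⟩ := Nat.exists_eq_add_of_le (show j ≤ d by omega)
        have : j + l - j = l := by omega
        rw [this]; ring
      have ha : (w 0 ^ j).natDegree ≤ j * N :=
        natDegree_pow_le.trans (Nat.mul_le_mul_left _ (hw 0))
      have hb : (w 1 ^ (d - j)).natDegree ≤ (d - j) * N :=
        natDegree_pow_le.trans (Nat.mul_le_mul_left _ (hw 1))
      have hc : (algebraMap A A[X] (r.coeff j) * w 0 ^ j).natDegree ≤ j * N :=
        (natDegree_C_mul_le _ _).trans ha
      refine ⟨?_, ?_⟩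
      · rw [e]
        exact natDegree_mul_le_of_le hc hb
      · rw [e, coeff_mul_add_eq_of_natDegree_le hc hb]
        have h2 : (algebraMap A A[X] (r.coeff j) * w 0 ^ j).coeff (j * N) =
            r.coeff j * (w 0).coeff N ^ j := by
          rw [show algebraMap A A[X] (r.coeff j) = C (r.coeff j) from rfl, coeff_C_mul,
            coeff_pow_of_natDegree_le (hw 0)]
        rw [h2, coeff_pow_of_natDegree_le (hw 1)]
        rfl
    refine ⟨natDegree_sum_le_of_forall_le _ _ fun j hj => (h1 j hj).1, ?_⟩
    rw [finsetSum_coeff]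
    exact Finset.sum_congr rfl fun j hj => (h1 j hj).2
  fin_cases i
  · exact key p
  · exact key q

/-- Degrees and top coefficients of iterated lifts. -/
theorem iter_deg {A : Type*} [CommRing A] (p q : A[X]) (d k N : ℕ) (w : Fin 2 → A[X])
    (hw : ∀ i, (w i).natDegree ≤ N) :
    (∀ i, ((lift p q d)^[k] w i).natDegree ≤ N * d ^ k) ∧
      (fun i => ((lift p q d)^[k] w i).coeff (N * d ^ k)) =
        (lift p q d)^[k] (fun j => (w j).coeff N) := by
  induction k generalizing w N with
  | zero => simpa using hw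
  | succ k ih =>
    have h := lift_deg p q d N w hw
    have h1 := ih (N * d) (lift p q d w) (fun i => (h i).1)
    have e : N * d * d ^ k = N * d ^ (k + 1) := by ring
    rw [e] at h1
    rw [Function.iterate_succ_apply, Function.iterate_succ_apply]
    refine ⟨h1.1, ?_⟩
    rw [h1.2]
    congr 1
    funext i
    exact (h i).2

/-- The restriction of the form of the periodic points to a line, over any ring. -/
noncomputable def cl {A : Type*} [CommRing A] (p q : A[X]) (d k : ℕ) (v u : Fin 2 → A) : A[X] :=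
  (C (v 1) + C (u 1) * X) * (lift p q d)^[k] (fun i => C (v i) + C (u i) * X) 0 -
    (C (v 0) + C (u 0) * X) * (lift p q d)^[k] (fun i => C (v i) + C (u i) * X) 1

/-- The value of the form of the periodic points at a vector. -/
noncomputable def ev {A : Type*} [CommRing A] (p q : A[X]) (d k : ℕ) (u : Fin 2 → A) : A :=
  u 1 * (lift p q d)^[k] u 0 - u 0 * (lift p q d)^[k] u 1

theorem lin_natDegree {A : Type*} [CommRing A] (a b : A) : (C a + C b * X).natDegree ≤ 1 := by
  rw [add_comm]
  exact natDegree_linear_le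

theorem lin_coeff {A : Type*} [CommRing A] (a b : A) : (C a + C b * X).coeff 1 = b := by
  simp [coeff_C]

theorem cl_deg {A : Type*} [CommRing A] (p q : A[X]) (d k : ℕ) (v u : Fin 2 → A) :
    (cl p q d k v u).natDegree ≤ d ^ k + 1 ∧
      (cl p q d k v u).coeff (d ^ k + 1) = ev p q d k u := by
  have h := iter_deg p q d k 1 (fun i => C (v i) + C (u i) * X) (fun i => lin_natDegree _ _)
  rw [one_mul] at h
  have e1 : (fun i => (C (v i) + C (u i) * X).coeff 1) = u := by
    funext i
    exact lin_coeff _ _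
  rw [e1] at h
  have h0 : ((lift p q d)^[k] (fun i => C (v i) + C (u i) * X) 0).coeff (d ^ k) =
    (lift p q d)^[k] u 0 := congrFun h.2 0
  have h1 : ((lift p q d)^[k] (fun i => C (v i) + C (u i) * X) 1).coeff (d ^ k) =
    (lift p q d)^[k] u 1 := congrFun h.2 1
  unfold cl ev
  rw [add_comm (d ^ k) 1]
  constructor
  · refine (natDegree_sub_le _ _).trans (max_le ?_ ?_)
    · exact natDegree_mul_le_of_le (lin_natDegree _ _) (h.1 0)
    · exact natDegree_mul_le_of_le (lin_natDegree _ _) (h.1 1)
  · rw [coeff_sub, coeff_mul_add_eq_of_natDegree_le (lin_natDegree _ _) (h.1 0),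
      coeff_mul_add_eq_of_natDegree_le (lin_natDegree _ _) (h.1 1), h0, h1, lin_coeff, lin_coeff]

theorem cl_map {A A' : Type*} [CommRing A] [CommRing A'] (g : A →+* A') (p q : A[X]) (d k : ℕ)
    (v u : Fin 2 → A) :
    (cl p q d k v u).map g =
      cl (p.map g) (q.map g) d k (fun i => g (v i)) (fun i => g (u i)) := by
  have h := lift_iter g (mapRingHom g) (fun a => by simp [algebraMap_eq]) p q d k
    (fun i => C (v i) + C (u i) * X)
  have e : (fun j => (mapRingHom g) (C (v j) + C (u j) * X)) =
      fun i => C (g (v i)) + C (g (u i)) * X := by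
    funext j
    simp
  rw [e] at h
  have h0 := congrFun h 0
  have h1 := congrFun h 1
  simp only [coe_mapRingHom] at h0 h1
  unfold cl
  rw [Polynomial.map_sub, Polynomial.map_mul, Polynomial.map_mul, h0, h1]
  simp

theorem ev_map {A A' : Type*} [CommRing A] [CommRing A'] (g : A →+* A') (p q : A[X]) (d k : ℕ)
    (u : Fin 2 → A) :
    g (ev p q d k u) = ev (p.map g) (q.map g) d k (fun i => g (u i)) := by
  have h := lift_iter g g (fun a => rfl) p q d k u
  have h0 : g ((lift p q d)^[k] u 0) = _ := congrFun h 0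
  have h1 : g ((lift p q d)^[k] u 1) = _ := congrFun h 1
  unfold ev
  rw [map_sub, map_mul, map_mul, h0, h1]

theorem ln_per {K : Type*} [Field K] (p q : K[X]) (d k : ℕ) (v u : Fin 2 → K) :
    ln v u (per p q d k) = cl p q d k v u := by
  have h := lift_iter (RingHom.id K)
    (MvPolynomial.aeval (fun i => C (v i) + C (u i) * X) :
      MvPolynomial (Fin 2) K →ₐ[K] K[X]).toRingHom
    (fun a => (MvPolynomial.aeval (fun i => C (v i) + C (u i) * X) :
      MvPolynomial (Fin 2) K →ₐ[K] K[X]).commutes a) p q d k MvPolynomial.X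
  have e : (fun j => (MvPolynomial.aeval (fun i => C (v i) + C (u i) * X) :
      MvPolynomial (Fin 2) K →ₐ[K] K[X]).toRingHom (MvPolynomial.X j)) =
      fun i => C (v i) + C (u i) * X := by
    funext j
    exact MvPolynomial.aeval_X _ j
  rw [e, Polynomial.map_id, Polynomial.map_id] at h
  have h0 := congrFun h 0
  have h1 := congrFun h 1
  have a0 : MvPolynomial.aeval (fun i => C (v i) + C (u i) * X)
      ((lift p q d)^[k] MvPolynomial.X 0) =
      (lift p q d)^[k] (fun i => C (v i) + C (u i) * X) 0 := h0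
  have a1 : MvPolynomial.aeval (fun i => C (v i) + C (u i) * X)
      ((lift p q d)^[k] MvPolynomial.X 1) =
      (lift p q d)^[k] (fun i => C (v i) + C (u i) * X) 1 := h1
  unfold ln per cl
  rw [map_sub, map_mul, map_mul, a0, a1, MvPolynomial.aeval_X, MvPolynomial.aeval_X]

theorem eval_per {K : Type*} [Field K] (p q : K[X]) (d k : ℕ) (u : Fin 2 → K) :
    MvPolynomial.eval u (per p q d k) = ev p q d k u := by
  have h := lift_iter (RingHom.id K) (MvPolynomial.eval u)
    (fun a => by rw [MvPolynomial.algebraMap_eq, MvPolynomial.eval_C]; rfl) p q d k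
    MvPolynomial.X
  have e : (fun j => MvPolynomial.eval u (MvPolynomial.X j)) = u := by
    funext j
    exact MvPolynomial.eval_X j
  rw [e, Polynomial.map_id, Polynomial.map_id] at h
  have a0 : MvPolynomial.eval u ((lift p q d)^[k] MvPolynomial.X 0) =
      (lift p q d)^[k] u 0 := congrFun h 0
  have a1 : MvPolynomial.eval u ((lift p q d)^[k] MvPolynomial.X 1) =
      (lift p q d)^[k] u 1 := congrFun h 1
  unfold per ev
  rw [map_sub, map_mul, map_mul, a0, a1, MvPolynomial.eval_X, MvPolynomial.eval_X]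

/-- The iterates of the power map. -/
theorem lift_pow {A B : Type*} [CommRing A] [CommRing B] [Algebra A B] (d k : ℕ)
    (w : Fin 2 → B) :
    (lift (X ^ d : A[X]) 1 d)^[k] w = fun i => w i ^ (d ^ k) := by
  have h1 : ∀ w : Fin 2 → B, lift (X ^ d : A[X]) 1 d w = fun i => w i ^ d := by
    intro w
    funext i
    fin_cases i
    · simp only [lift, Matrix.cons_val_zero, Fin.zero_eta, Fin.isValue]
      rw [Finset.sum_eq_single d]
      · simp
      · intro j _ hj
        simp [coeff_X_pow, hj]
      · simp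
    · simp only [lift, Matrix.cons_val_one, Fin.mk_one, Fin.isValue]
      rw [Finset.sum_eq_single 0]
      · simp
      · intro j _ hj
        simp [coeff_one, hj]
      · simp
  induction k generalizing w with
  | zero => simp
  | succ k ih =>
    rw [Function.iterate_succ_apply, h1, ih]
    funext i
    rw [← pow_mul, pow_succ, mul_comm]

/-- The fixed points of the powers of the power map are simple. -/
theorem sep_pow (d k : ℕ) (hd : 2 ≤ d) (hk : 1 ≤ k) (v u : Fin 2 → ℂ)
    (hD : v 0 * u 1 - v 1 * u 0 ≠ 0) (hu : ev (X ^ d : ℂ[X]) 1 d k u ≠ 0) :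
    (cl (X ^ d : ℂ[X]) 1 d k v u).natDegree = d ^ k + 1 ∧
      IsCoprime (cl (X ^ d : ℂ[X]) 1 d k v u) (derivative (cl (X ^ d : ℂ[X]) 1 d k v u)) := by
  have hdeg := cl_deg (X ^ d : ℂ[X]) 1 d k v u
  have hn : (cl (X ^ d : ℂ[X]) 1 d k v u).natDegree = d ^ k + 1 := by
    apply le_antisymm hdeg.1
    apply le_natDegree_of_ne_zero
    rw [hdeg.2]; exact hu
  refine ⟨hn, ?_⟩
  obtain ⟨m, hm⟩ : ∃ m, d ^ k = m + 2 := by
    have h1 : 2 ≤ d ^ k := hd.trans (Nat.le_self_pow (by omega) d)
    exact ⟨d ^ k - 2, by omega⟩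
  have hcl : cl (X ^ d : ℂ[X]) 1 d k v u =
      (C (v 1) + C (u 1) * X) * (C (v 0) + C (u 0) * X) ^ (m + 2) -
      (C (v 0) + C (u 0) * X) * (C (v 1) + C (u 1) * X) ^ (m + 2) := by
    unfold cl
    rw [lift_pow, hm]
  rw [hcl]
  rw [Polynomial.isCoprime_iff_aeval_ne_zero_of_isAlgClosed ℂ ℂ]
  intro s
  by_contra hc
  push Not at hc
  obtain ⟨h1, h2⟩ := hc
  simp only [coe_aeval_eq_eval, derivative_sub, derivative_mul, derivative_pow, derivative_add,
    derivative_C, derivative_X, eval_sub, eval_mul, eval_pow, eval_add, eval_C, eval_X,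
    Nat.cast_add, Nat.cast_ofNat, zero_add, mul_one, zero_mul,
    Nat.add_succ_sub_one] at h1 h2
  set a := v 0 + u 0 * s with ha
  set b := v 1 + u 1 * s with hb
  have hD' : a * u 1 - b * u 0 ≠ 0 := by
    have : a * u 1 - b * u 0 = v 0 * u 1 - v 1 * u 0 := by rw [ha, hb]; ring
    rw [this]; exact hD
  by_cases ha0 : a = 0
  · rw [ha0] at h1 h2 hD'
    by_cases hb0 : b = 0
    · rw [hb0] at hD'; simp at hD'
    · have : u 0 = 0 := by
        simpa [hb0] using h2
      rw [this] at hD'; simp at hD'
  · by_cases hb0 : b = 0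
    · rw [hb0] at h1 h2 hD'
      have : u 1 = 0 := by
        simpa [ha0] using h2
      rw [this] at hD'; simp at hD'
    · have h3 : a ^ (m + 1) = b ^ (m + 1) := by
        have : a * b * (a ^ (m + 1) - b ^ (m + 1)) = 0 := by linear_combination h1
        rcases mul_eq_zero.1 this with h | h
        · exact absurd h (mul_ne_zero ha0 hb0)
        · exact sub_eq_zero.1 h
      have h4 : a ^ (m + 1) * ((m : ℂ) + 1) * (a * u 1 - b * u 0) = 0 := by
        linear_combination (-1 : ℂ) * h2 + (((m : ℂ) + 2) * a * u 1 + b * u 0) * h3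
      have h5 : ((m : ℂ) + 1) ≠ 0 := by exact_mod_cast Nat.succ_ne_zero m
      exact (mul_ne_zero (mul_ne_zero (pow_ne_zero _ ha0) h5) hD') h4

/-- (R8) -/
theorem sqf : S_sqf := by
  intro d n hd hn p q hpq v u hD hu
  set P : (ℂ[X])[X] := C (1 - X) * p.map C + C X * X ^ d with hP
  set Q : (ℂ[X])[X] := C (1 - X) * q.map C + C X with hQ
  have hφ : ∀ t : ℂ, (evalRingHom t).comp (C : ℂ →+* ℂ[X]) = RingHom.id ℂ := by
    intro t
    ext x
    simp
  have hPt : ∀ t : ℂ, P.map (evalRingHom t) = C (1 - t) * p + C t * X ^ d := by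
    intro t
    rw [hP]
    simp only [Polynomial.map_add, Polynomial.map_mul, Polynomial.map_C, Polynomial.map_pow,
      Polynomial.map_X, Polynomial.map_map, hφ, Polynomial.map_id, coe_evalRingHom, eval_sub,
      eval_one, eval_X]
  have hQt : ∀ t : ℂ, Q.map (evalRingHom t) = C (1 - t) * q + C t := by
    intro t
    rw [hQ]
    simp only [Polynomial.map_add, Polynomial.map_mul, Polynomial.map_C, 
      Polynomial.map_X, Polynomial.map_map, hφ, Polynomial.map_id, coe_evalRingHom, eval_sub,
      eval_one, eval_X]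
  set V : Fin 2 → ℂ[X] := fun i => C (v i) with hV
  set U : Fin 2 → ℂ[X] := fun i => C (u i) with hU
  have hVt : ∀ t : ℂ, (fun i => evalRingHom t (V i)) = v := by
    intro t; funext i; simp [hV]
  have hUt : ∀ t : ℂ, (fun i => evalRingHom t (U i)) = u := by
    intro t; funext i; simp [hU]
  have hcl : ∀ k t, (cl P Q d k V U).map (evalRingHom t) =
      cl (C (1 - t) * p + C t * X ^ d) (C (1 - t) * q + C t) d k v u := by
    intro k t
    rw [cl_map, hPt, hQt, hVt, hUt]
  have hev : ∀ k t, (ev P Q d k U).eval t =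
      ev (C (1 - t) * p + C t * X ^ d) (C (1 - t) * q + C t) d k u := by
    intro k t
    have := ev_map (evalRingHom t) P Q d k U
    rw [hPt, hQt, hUt] at this
    exact this
  have h1P : C (1 - (1 : ℂ)) * p + C 1 * X ^ d = X ^ d := by simp
  have h1Q : C (1 - (1 : ℂ)) * q + C 1 = 1 := by simp
  -- the polynomials in `t`
  set R0 : ℂ[X] := resultant P Q d d with hR0
  set Rk : ℕ → ℂ[X] := fun k =>
    resultant (cl P Q d k V U) (derivative (cl P Q d k V U)) (d ^ k + 1) (d ^ k) with hRk
  have hR0t : ∀ t, R0.eval t = resultant (C (1 - t) * p + C t * X ^ d)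
      (C (1 - t) * q + C t) d d := by
    intro t
    have := resultant_map_map P Q d d (evalRingHom t)
    rw [hPt, hQt] at this
    exact this.symm
  have hRkt : ∀ k t, (Rk k).eval t = resultant
      (cl (C (1 - t) * p + C t * X ^ d) (C (1 - t) * q + C t) d k v u)
      (derivative (cl (C (1 - t) * p + C t * X ^ d) (C (1 - t) * q + C t) d k v u))
      (d ^ k + 1) (d ^ k) := by
    intro k t
    have := resultant_map_map (cl P Q d k V U) (derivative (cl P Q d k V U)) (d ^ k + 1) (d ^ k)
      (evalRingHom t)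
    rw [← derivative_map, hcl] at this
    exact this.symm
  set G : ℂ[X] := R0 * ∏ k ∈ n.divisors, (Rk k * ev P Q d k U) with hG
  have hG1 : G.eval 1 ≠ 0 := by
    rw [hG, eval_mul, eval_prod]
    refine mul_ne_zero ?_ (Finset.prod_ne_zero_iff.2 fun k hk => ?_)
    · rw [hR0t, h1P, h1Q]
      refine res_ne _ _ d d (natDegree_X_pow d) (pow_ne_zero _ X_ne_zero) ?_ isCoprime_one_right
      rw [natDegree_one]; omega
    · have hk1 : 1 ≤ k := Nat.pos_of_mem_divisors hk
      have hu1 := hu k hk
      rw [eval_per] at hu1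
      obtain ⟨hs1, hs2⟩ := sep_pow d k hd hk1 v u hD hu1
      rw [eval_mul, hRkt, hev, h1P, h1Q]
      refine mul_ne_zero ?_ hu1
      refine res_ne _ _ _ _ hs1 ?_ ?_ hs2
      · intro h0
        rw [h0, natDegree_zero] at hs1
        omega
      · exact (natDegree_derivative_le _).trans (by omega)
  have hG0 : G ≠ 0 := by
    intro h
    rw [h] at hG1
    simp at hG1
  refine ⟨G.roots.toFinset, ?_⟩
  intro t ht
  have hGt : G.eval t ≠ 0 := by
    intro h
    apply ht
    rw [Multiset.mem_toFinset, mem_roots hG0]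
    exact h
  rw [hG, eval_mul, eval_prod] at hGt
  have hRt := left_ne_zero_of_mul hGt
  have hkt := Finset.prod_ne_zero_iff.1 (right_ne_zero_of_mul hGt)
  rw [hR0t] at hRt
  have hp : p.natDegree ≤ d := by rw [← hpq]; exact le_max_left _ _
  have hq : q.natDegree ≤ d := by rw [← hpq]; exact le_max_right _ _
  have hpt : (C (1 - t) * p + C t * X ^ d).natDegree ≤ d := by
    refine natDegree_add_le_of_degree_le ((natDegree_C_mul_le _ _).trans hp) ?_
    exact natDegree_C_mul_X_pow_le _ _
  have hqt : (C (1 - t) * q + C t).natDegree ≤ d := by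
    refine natDegree_add_le_of_degree_le ((natDegree_C_mul_le _ _).trans hq) ?_
    rw [natDegree_C]; omega
  refine ⟨res_cop _ _ d d hpt hqt (Or.inl (by omega)) hRt, ?_, ?_⟩
  · rcases res_deg _ _ d d hpt hqt hRt with h | h
    · rw [h]; exact max_eq_left hqt
    · rw [h]; exact max_eq_right hpt
  · intro k hk
    have h1 := hkt k hk
    rw [eval_mul, hRkt, hev] at h1
    have h2 := left_ne_zero_of_mul h1
    have h3 := right_ne_zero_of_mul h1
    have hdeg := cl_deg (C (1 - t) * p + C t * X ^ d) (C (1 - t) * q + C t) d k v u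
    rw [ln_per]
    have hn : (cl (C (1 - t) * p + C t * X ^ d) (C (1 - t) * q + C t) d k v u).natDegree =
        d ^ k + 1 := by
      apply le_antisymm hdeg.1
      apply le_natDegree_of_ne_zero
      rw [hdeg.2]; exact h3
    refine ⟨hn, ?_⟩
    refine res_cop _ _ (d ^ k + 1) (d ^ k) hdeg.1 ?_ (Or.inl (by omega)) h2
    exact (natDegree_derivative_le _).trans (by omega)

end Pool.Agent.Q162.GT
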